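import Pool.Agent.X172.GR.Stm

/-! (MIN) of project GR: a finite nonempty set of vertices, each with two neighbours in the set,
contains a cycle. Longest path. -/

set_option autoImplicit false

namespace Pool.Agent.X47.GRM

open Pool.Agent.X172.GR SimpleGraph

theorem t_MIN : S_MIN := by
  intro V G W hW hne h hac
  classical
  have hH : (G.induce W).IsAcyclic := hac.induce W
  haveI : Finite W := hW
  haveI := Fintype.ofFinite W
  let P : ℕ → Prop := fun n => ∃ (u v : W) (p : (G.induce W).Walk u v), p.IsPath ∧ p.length = n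
  have h0 : P 0 := by
    obtain ⟨x, hx⟩ := hne
    exact ⟨⟨x, hx⟩, ⟨x, hx⟩, Walk.nil, Walk.IsPath.nil, rfl⟩
  have hb : ∀ n, P n → n ≤ Fintype.card W := by
    rintro n ⟨u, v, p, hp, rfl⟩
    exact hp.length_lt.le
  have hs : P (Nat.findGreatest P (Fintype.card W)) := Nat.findGreatest_spec (Nat.zero_le _) h0
  obtain ⟨u, v, p, hp, hl⟩ := hs
  obtain ⟨y, hy, z, hz, hyz, ay, az⟩ := h u.1 u.2
  have key : ∀ w : W, (G.induce W).Adj u w → w = p.snd := by
    intro w hw
    apply hH.eq_snd_of_adj_start hp hw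
    by_contra hn
    have hp' : (Walk.cons hw.symm p).IsPath := (Walk.cons_isPath_iff _ _).2 ⟨hp, hn⟩
    have hP : P (p.length + 1) := ⟨w, v, _, hp', by simp⟩
    have := Nat.le_findGreatest (hb _ hP) hP
    omega
  have h1 := key ⟨y, hy⟩ (by simpa using ay)
  have h2 := key ⟨z, hz⟩ (by simpa using az)
  exact hyz (congrArg Subtype.val (h1.trans h2.symm))

end Pool.Agent.X47.GRM
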